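import Mathlib
import Pool.Agent.helper76.BQ.TDefs
import Pool.Agent.helper76.BQ.BDefs
import Pool.Agent.helper76.BQ.BGood

/-!
Module B1d of project bq: uniform positivity of the real part of `q_z` on compact subsets of the ball.
-/

open Matrix Complex

namespace Pool.Agent.helper76.BQ

theorem B1d_nn_ne {D : ℝ} {z : Fin 2 → ℂ} (hz : z ∈ Ball D) : nn D z ≠ 0 := by
  have h0 : (z 0 ^ 2).re ≤ ‖z 0‖ ^ 2 := by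
    rw [← norm_pow]; exact Complex.re_le_norm _
  have h1 : (z 1 ^ 2).re ≤ ‖z 1‖ ^ 2 := by
    rw [← norm_pow]; exact Complex.re_le_norm _
  have hz' : ‖z 0‖ ^ 2 + ‖z 1‖ ^ 2 < D := hz
  intro h
  have h2 := congrArg Complex.re h
  simp only [nn, Complex.sub_re, Complex.ofReal_re, Complex.zero_re] at h2
  linarith

theorem B1d_ss_mul {D : ℝ} {z : Fin 2 → ℂ} (hz : z ∈ Ball D) (x : Fin 3 → ℂ) :
    ss D x z * ss D x z = bil D x (lift z) ^ 2 / nn D z := by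
  have hN := B1d_nn_ne hz
  have h : nn D z ^ (1 / 2 : ℂ) * nn D z ^ (1 / 2 : ℂ) = nn D z := by
    rw [← Complex.cpow_add _ _ hN]
    norm_num
  unfold ss
  rw [div_mul_div_comm, h, sq]

theorem B1d_re {D : ℝ} {z : Fin 2 → ℂ} (hz : z ∈ Ball D) (x : Fin 3 → ℝ) (c : ℂ)
    (hc : c * nn D z = -bil D (fun i => (x i : ℂ)) (lift z)) :
    (qz D (fun i => (x i : ℂ)) (fun i => (x i : ℂ)) z).re =
      ‖(x 0 : ℂ) - c * z 0‖ ^ 2 + ‖(x 1 : ℂ) - c * z 1‖ ^ 2 - D * ‖(x 2 : ℂ) - c‖ ^ 2 +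
        ‖c‖ ^ 2 * (D - ‖z 0‖ ^ 2 - ‖z 1‖ ^ 2) := by
  have hN := B1d_nn_ne hz
  have hP : bil D (fun i => (x i : ℂ)) (lift z) = -(c * nn D z) := by rw [hc]; ring
  have e1 : qz D (fun i => (x i : ℂ)) (fun i => (x i : ℂ)) z =
      bil D (fun i => (x i : ℂ)) (fun i => (x i : ℂ)) -
        2 * (c * bil D (fun i => (x i : ℂ)) (lift z)) := by
    unfold qz
    rw [mul_assoc, B1d_ss_mul hz, sq, mul_div_assoc]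
    have : bil D (fun i => (x i : ℂ)) (lift z) / nn D z = -c := by
      rw [hP]; field_simp
    rw [this]; ring
  rw [e1]
  have e2 : bil D (fun i => (x i : ℂ)) (lift z) =
      (x 0 : ℂ) * z 0 + (x 1 : ℂ) * z 1 - D * (x 2 : ℂ) := by
    simp [bil, lift]
  rw [e2]
  simp only [bil, Complex.sq_norm, Complex.normSq_apply, Complex.sub_re, Complex.sub_im,
    Complex.add_re, Complex.add_im, Complex.mul_re, Complex.mul_im, Complex.ofReal_re,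
    Complex.ofReal_im, Complex.re_ofNat, Complex.im_ofNat]
  ring

theorem B1d_orth {D : ℝ} {z : Fin 2 → ℂ} (x : Fin 3 → ℝ) (c : ℂ)
    (hc : c * nn D z = -bil D (fun i => (x i : ℂ)) (lift z)) :
    (D : ℂ) * ((x 2 : ℂ) - c) = ((x 0 : ℂ) - c * z 0) * z 0 + ((x 1 : ℂ) - c * z 1) * z 1 := by
  have e2 : bil D (fun i => (x i : ℂ)) (lift z) =
      (x 0 : ℂ) * z 0 + (x 1 : ℂ) * z 1 - D * (x 2 : ℂ) := by
    simp [bil, lift]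
  rw [e2] at hc
  unfold nn at hc
  linear_combination -hc

theorem B1d_point {D : ℝ} (hD : 0 < D) {z : Fin 2 → ℂ} (hz : z ∈ Ball D) (x : Fin 3 → ℝ) :
    (1 - (‖z 0‖ ^ 2 + ‖z 1‖ ^ 2) / D) * ∑ i, x i ^ 2 ≤
      2 * (1 + 1 / D) * (qz D (fun i => (x i : ℂ)) (fun i => (x i : ℂ)) z).re := by
  have hN := B1d_nn_ne hz
  have hz' : ‖z 0‖ ^ 2 + ‖z 1‖ ^ 2 < D := hz
  obtain ⟨c, hc⟩ : ∃ c : ℂ, c * nn D z = -bil D (fun i => (x i : ℂ)) (lift z) :=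
    ⟨-bil D (fun i => (x i : ℂ)) (lift z) / nn D z, by field_simp⟩
  rw [B1d_re hz x c hc]
  have ho := B1d_orth x c hc
  set u0 := (x 0 : ℂ) - c * z 0 with hu0
  set u1 := (x 1 : ℂ) - c * z 1 with hu1
  set u2 := (x 2 : ℂ) - c with hu2
  set r := ‖z 0‖ ^ 2 + ‖z 1‖ ^ 2 with hr
  -- Cauchy Schwarz
  have hcs : D ^ 2 * ‖u2‖ ^ 2 ≤ r * (‖u0‖ ^ 2 + ‖u1‖ ^ 2) := by
    have h1 : D * ‖u2‖ ≤ ‖u0‖ * ‖z 0‖ + ‖u1‖ * ‖z 1‖ := by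
      have : D * ‖u2‖ = ‖(D : ℂ) * u2‖ := by
        rw [norm_mul, Complex.norm_real, Real.norm_of_nonneg hD.le]
      rw [this, ho]
      refine (norm_add_le _ _).trans ?_
      rw [norm_mul, norm_mul]
    have h0 : 0 ≤ D * ‖u2‖ := by positivity
    calc D ^ 2 * ‖u2‖ ^ 2 = (D * ‖u2‖) ^ 2 := by ring
      _ ≤ (‖u0‖ * ‖z 0‖ + ‖u1‖ * ‖z 1‖) ^ 2 := by gcongr
      _ ≤ r * (‖u0‖ ^ 2 + ‖u1‖ ^ 2) := by
        rw [hr]; nlinarith [sq_nonneg (‖u0‖ * ‖z 1‖ - ‖u1‖ * ‖z 0‖)]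
  have hs : 0 ≤ ‖u0‖ ^ 2 + ‖u1‖ ^ 2 := by positivity
  have hr0 : 0 ≤ r := by positivity
  -- bounds of the coordinates
  have hx0 : x 0 ^ 2 ≤ 2 * ‖u0‖ ^ 2 + 2 * (‖c‖ ^ 2 * ‖z 0‖ ^ 2) := by
    have e : (x 0 : ℂ) = u0 + c * z 0 := by rw [hu0]; ring
    have h1 : |x 0| ≤ ‖u0‖ + ‖c‖ * ‖z 0‖ := by
      rw [← Real.norm_eq_abs, ← Complex.norm_real, e, ← norm_mul]
      exact norm_add_le _ _
    rw [← sq_abs]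
    calc |x 0| ^ 2 ≤ (‖u0‖ + ‖c‖ * ‖z 0‖) ^ 2 := by gcongr
      _ ≤ _ := by nlinarith [sq_nonneg (‖u0‖ - ‖c‖ * ‖z 0‖)]
  have hx1 : x 1 ^ 2 ≤ 2 * ‖u1‖ ^ 2 + 2 * (‖c‖ ^ 2 * ‖z 1‖ ^ 2) := by
    have e : (x 1 : ℂ) = u1 + c * z 1 := by rw [hu1]; ring
    have h1 : |x 1| ≤ ‖u1‖ + ‖c‖ * ‖z 1‖ := by
      rw [← Real.norm_eq_abs, ← Complex.norm_real, e, ← norm_mul]
      exact norm_add_le _ _
    rw [← sq_abs]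
    calc |x 1| ^ 2 ≤ (‖u1‖ + ‖c‖ * ‖z 1‖) ^ 2 := by gcongr
      _ ≤ _ := by nlinarith [sq_nonneg (‖u1‖ - ‖c‖ * ‖z 1‖)]
  have hx2 : x 2 ^ 2 ≤ 2 * ‖u2‖ ^ 2 + 2 * ‖c‖ ^ 2 := by
    have e : (x 2 : ℂ) = u2 + c := by rw [hu2]; ring
    have h1 : |x 2| ≤ ‖u2‖ + ‖c‖ := by
      rw [← Real.norm_eq_abs, ← Complex.norm_real, e]
      exact norm_add_le _ _
    rw [← sq_abs]
    calc |x 2| ^ 2 ≤ (‖u2‖ + ‖c‖) ^ 2 := by gcongr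
      _ ≤ _ := by nlinarith [sq_nonneg (‖u2‖ - ‖c‖)]
  set s := ‖u0‖ ^ 2 + ‖u1‖ ^ 2 with hs'
  have hsum : ∑ i, x i ^ 2 ≤ 2 * s + 2 * (‖c‖ ^ 2 * r) + 2 * ‖u2‖ ^ 2 + 2 * ‖c‖ ^ 2 := by
    rw [Fin.sum_univ_three, hs', hr]
    nlinarith
  have hu2' : ‖u2‖ ^ 2 ≤ s / D := by
    rw [le_div_iff₀ hD]
    have : D * (‖u2‖ ^ 2 * D) ≤ D * s := by
      calc D * (‖u2‖ ^ 2 * D) = D ^ 2 * ‖u2‖ ^ 2 := by ring
        _ ≤ r * s := hcs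
        _ ≤ D * s := by gcongr
    exact le_of_mul_le_mul_left this hD
  have hu2'' : D * ‖u2‖ ^ 2 ≤ (r / D) * s := by
    have : D * (D * ‖u2‖ ^ 2) ≤ D * ((r / D) * s) := by
      calc D * (D * ‖u2‖ ^ 2) = D ^ 2 * ‖u2‖ ^ 2 := by ring
        _ ≤ r * s := hcs
        _ = D * ((r / D) * s) := by field_simp
    exact le_of_mul_le_mul_left this hD
  have hdel : 0 ≤ 1 - r / D := by
    rw [sub_nonneg, div_le_one hD]; exact hz'.le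
  have hc2 : 0 ≤ ‖c‖ ^ 2 := by positivity
  have hsum' : ∑ i, x i ^ 2 ≤ 2 * (1 + 1 / D) * (s + ‖c‖ ^ 2 * D) := by
    have e1 : 2 * (1 + 1 / D) * (s + ‖c‖ ^ 2 * D) =
        2 * s + 2 * (‖c‖ ^ 2 * D) + 2 * (s / D) + 2 * ‖c‖ ^ 2 := by
      field_simp; ring
    rw [e1]
    have : ‖c‖ ^ 2 * r ≤ ‖c‖ ^ 2 * D := by gcongr
    linarith
  calc (1 - r / D) * ∑ i, x i ^ 2
      ≤ (1 - r / D) * (2 * (1 + 1 / D) * (s + ‖c‖ ^ 2 * D)) := by gcongr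
    _ = 2 * (1 + 1 / D) * ((1 - r / D) * s + ‖c‖ ^ 2 * (D - r)) := by field_simp
    _ ≤ 2 * (1 + 1 / D) * (‖u0‖ ^ 2 + ‖u1‖ ^ 2 - D * ‖u2‖ ^ 2 +
        ‖c‖ ^ 2 * (D - ‖z 0‖ ^ 2 - ‖z 1‖ ^ 2)) := by
      have h1 : 0 ≤ 2 * (1 + 1 / D) := by positivity
      refine mul_le_mul_of_nonneg_left ?_ h1
      have e2 : ‖c‖ ^ 2 * (D - ‖z 0‖ ^ 2 - ‖z 1‖ ^ 2) = ‖c‖ ^ 2 * (D - r) := by rw [hr]; ring
      rw [e2, ← hs']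
      linarith

/-- B1d: uniform positivity on compact sets. -/
theorem qz_pos {D : ℝ} (hD : 0 < D) {K : Set (Fin 2 → ℂ)} (hK : IsCompact K) (hKB : K ⊆ Ball D) :
    ∃ c : ℝ, 0 < c ∧ ∀ z ∈ K, ∀ x : Fin 3 → ℝ,
      c * ∑ i, x i ^ 2 ≤ (qz D (fun i => (x i : ℂ)) (fun i => (x i : ℂ)) z).re := by
  rcases K.eq_empty_or_nonempty with h | h
  · subst h
    exact ⟨1, one_pos, fun z hz => absurd hz (Set.notMem_empty z)⟩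
  · have hcont : Continuous (fun z : Fin 2 → ℂ => ‖z 0‖ ^ 2 + ‖z 1‖ ^ 2) := by fun_prop
    obtain ⟨w, hw, hmax⟩ := hK.exists_isMaxOn h hcont.continuousOn
    have hwB : ‖w 0‖ ^ 2 + ‖w 1‖ ^ 2 < D := hKB hw
    have hA : 0 < 2 * (1 + 1 / D) := by positivity
    have hdel : 0 < 1 - (‖w 0‖ ^ 2 + ‖w 1‖ ^ 2) / D := by
      rw [sub_pos, div_lt_one hD]; exact hwB
    refine ⟨(1 - (‖w 0‖ ^ 2 + ‖w 1‖ ^ 2) / D) / (2 * (1 + 1 / D)), div_pos hdel hA, ?_⟩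
    intro z hz x
    have h1 := B1d_point hD (hKB hz) x
    have h2 : ‖z 0‖ ^ 2 + ‖z 1‖ ^ 2 ≤ ‖w 0‖ ^ 2 + ‖w 1‖ ^ 2 := hmax hz
    have h3 : 0 ≤ ∑ i, x i ^ 2 := Finset.sum_nonneg fun i _ => sq_nonneg _
    rw [div_mul_eq_mul_div, div_le_iff₀ hA]
    calc (1 - (‖w 0‖ ^ 2 + ‖w 1‖ ^ 2) / D) * ∑ i, x i ^ 2
        ≤ (1 - (‖z 0‖ ^ 2 + ‖z 1‖ ^ 2) / D) * ∑ i, x i ^ 2 := by gcongr
      _ ≤ 2 * (1 + 1 / D) * (qz D (fun i => (x i : ℂ)) (fun i => (x i : ℂ)) z).re := h1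
      _ = _ := by ring

end Pool.Agent.helper76.BQ
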